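import Pool.Agent.Lib.MP_750254_mp.Proofs

set_option autoImplicit false

namespace Pool.Agent.Results.MP_750254_mp.TwoVersusOne

open Pool.Agent.Lib.MP_750254_mp

/-- **Q1 has a positive answer.**  For the adjacency operator plus the potential `2` on label `0`
and `-2` on label `1` on the trees `𝕋(M, j)`, `M = !![2, 2; 2, 2]`, the set `Σ₁` is
`(-3√3, 0) ∪ (0, 3√3)`, with two connected components, whereas the spectrum is `[-3√3, 3√3]`,
with one connected component. -/
theorem result :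
    ∃ (M : Matrix (Fin 2) (Fin 2) ℕ) (m : Fin 2 → Fin 2 → ℝ) (m₀ : Fin 2 → ℝ),
      IsSubstitutionMatrix M ∧
      Sigma1 m m₀ = Set.Ioo (-(3 * Real.sqrt 3)) 0 ∪ Set.Ioo 0 (3 * Real.sqrt 3) ∧
      numComponents (Sigma1 m m₀) = 2 ∧
      ∀ j : Fin 2, ∃ T : L2 M j →L[ℂ] L2 M j,
        IsLabelInvariant M j m m₀ T ∧
        spec T = (fun E : ℝ => (E : ℂ)) '' Set.Icc (-(3 * Real.sqrt 3)) (3 * Real.sqrt 3) ∧
        numComponents (spec T) = 1 := by
  have hs3p : 0 < Real.sqrt 3 := Real.sqrt_pos.2 (by norm_num)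
  refine ⟨M₀, fun k l => (M₀ k l : ℝ), w₀, ⟨?_, ?_, ?_⟩, sigma1_eq, ?_, ?_⟩
  · intro j
    fin_cases j <;> simp [M₀]
  · intro j
    fin_cases j <;> simp [M₀]
  · refine ⟨1, fun j k => ?_⟩
    rw [pow_one]
    fin_cases j <;> fin_cases k <;> simp [M₀]
  · rw [sigma1_eq]
    exact card_components_two (by positivity)
  · intro j
    have hspec : spec (show L2 M₀ j →L[ℂ] L2 M₀ j from treeOp M₀ j w₀)
        = (fun E : ℝ => (E : ℂ)) '' Set.Icc (-(3 * Real.sqrt 3)) (3 * Real.sqrt 3) :=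
      spectrum_eq j
    refine ⟨treeOp M₀ j w₀, treeOp_isLabelInvariant w₀, hspec, ?_⟩
    apply card_components_one
    rw [hspec]
    refine IsConnected.image ?_ _ Complex.continuous_ofReal.continuousOn
    exact isConnected_Icc (by linarith)

end Pool.Agent.Results.MP_750254_mp.TwoVersusOne
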